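import Pool.Agent.helper7.FI2.SpecK

set_option autoImplicit false

namespace Pool.Agent.FI2

open Pool.Agent.helper58.DC Pool.Agent.DI Pool.Agent.GR Pool.Agent.OB Pool.Agent.DR Pool.Agent.FI

theorem FCL2_le (hIF : IF_stmt) (Γ : Type) [Group Γ] [Finite Γ] (K N : Subgroup Γ) (hKN : K ≤ N) (ψ : Γ → ℂ)
    (hψ : ψ ∈ IrrOn K) : K ≤ stF N ψ := by
  intro k hk
  refine ⟨hKN hk, ?_⟩
  funext x
  have h1 := ((hIF Γ K).2 ψ hψ).2.1 k⁻¹ (K.inv_mem hk) x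
  change ψ ((MulAut.conj k)⁻¹ x) = ψ x
  rw [MulAut.conj_inv_apply]
  rw [inv_inv] at h1
  exact h1

theorem FCL2 (hKCC : KCC_stmt) (hKEE : KEE_stmt) (_hCFA : CFA_stmt) (hCFB : CFB_stmt) (hCCJ : CCJ_stmt)
    (hIF : IF_stmt) : FCL2_stmt := by
  intro Γ _ _ K N hKN hN ψ hψ hcy
  have hKS : K ≤ stF N ψ := FCL2_le hIF Γ K N hKN ψ hψ
  have hSN : stF N ψ ≤ N := fun _ h => h.1
  have hinv : ∀ s ∈ stF N ψ, cjF s ψ = ψ := fun s hs => hs.2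
  have f1 := hKCC Γ K (stF N ψ) hKS (hSN.trans hN) hcy ψ hψ hinv
  obtain ⟨c1, c2, c3⟩ := hCFB Γ K N hKN hN ψ hψ
  constructor
  · have himg : {φ : Γ → ℂ | φ ∈ IrrOn N ∧ ∃ e : ℕ, 0 < e ∧ OverE K N φ ψ e} =
        (fun φ₀ => indf N (stF N ψ) φ₀) ''
          {φ : Γ → ℂ | φ ∈ IrrOn (stF N ψ) ∧ ∃ e : ℕ, 0 < e ∧ ∀ x ∈ K, φ x = e * ψ x} := by
      ext φ
      constructor
      · rintro ⟨h1, e, h2, h3⟩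
        obtain ⟨φ₀, g1, g2, g3⟩ := c3 φ h1 e h2 h3
        exact ⟨φ₀, ⟨g1, e, h2, g2⟩, g3⟩
      · rintro ⟨φ₀, ⟨g1, e, g0, g2⟩, rfl⟩
        obtain ⟨a1, a2, -⟩ := c1 φ₀ g1 e g2
        exact ⟨a1, e, g0, a2⟩
    rw [himg, Set.ncard_image_of_injOn]
    · exact f1
    · rintro φ₀ ⟨g1, e, -, g2⟩ φ₁ ⟨g3, e', -, g4⟩ h
      exact c2 φ₀ g1 φ₁ g3 e e' g2 g4 h
  · intro φ hφ e he0 ho
    obtain ⟨φ₀, g1, g2, -⟩ := c3 φ hφ e he0 ho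
    exact ⟨(hCCJ Γ K N hN ψ hψ).2.2.2 φ e ho, hKEE Γ K (stF N ψ) hKS ψ hψ φ₀ g1 e g2⟩

end Pool.Agent.FI2
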