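import Pool.Agent.helper7.FI2.SpecK
import Pool.Agent.helper57.FI.FFS

set_option autoImplicit false

namespace Pool.Agent.FI2

open Pool.Agent.helper58.DC Pool.Agent.DI Pool.Agent.GR Pool.Agent.OB Pool.Agent.DR Pool.Agent.FI

theorem FFS2 (hFNC2 : FNC2_stmt) (hFTG : FTG_stmt) (hNM : NM_stmt) : FFS2_stmt := by
  classical
  intro p M hS G _ _ D x θ χ hL
  have _ : Fact p.Prime := ⟨hS.pr⟩
  let _ : Fintype G := Fintype.ofFinite G
  let _ : Fintype (Finset (Subgroup G)) := Fintype.ofFinite _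
  have hD := hL.lo.rt.dfa.pgrp
  have hcom := hL.lo.rt.com
  have hT : TT M D θ ≤ nz D := fun g hg => hg.1
  set f : Subgroup G → ℤ := fun U => (Nat.card (cz D) : ℤ) ^ 2 * ((Nat.card D : ℤ) - 1) + nP (cz D) U with hf
  have htg := hFTG G p D (TT M D θ) hD hL.lo.nb hT f
  rw [FFS_finsum (fun C : Finset (Subgroup G) => PCh p D ⊥ C ∧ C ≠ {⊥})] at htg
  rw [FFS_finsum (fun C : Finset (Subgroup G) => NCh p ⊤ ⊥ C ∧ C ≠ {⊥}), Finset.mul_sum]
  -- one chain
  have h1 : ∀ C : Finset (Subgroup G), ((Nat.card (cz D) : ℤ) * Nat.card (TT M D θ)) * (if NCh p ⊤ ⊥ C ∧ C ≠ {⊥} then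
      (-1) ^ (C.card + 1) * ((Nat.card (nrm C) : ℤ) * (Blk M χ (nrm C)).ncard) else 0) =
      ∑ g : G, (if (NCh p ⊤ ⊥ C ∧ C ≠ {⊥}) ∧ ∀ Q ∈ C, cjS g Q ≤ D then
        (-1) ^ (C.card + 1) * f (TT M D θ ⊓ cjS g (nrm C)) else 0) := by
    intro C
    by_cases hC : NCh p ⊤ ⊥ C ∧ C ≠ {⊥}
    · rw [if_pos hC]
      have h2 := (hFNC2 p M hS G D x θ χ hL C hC.1 hC.2).1
      rw [FFS_finsum (fun g : G => ∀ Q ∈ C, cjS g Q ≤ D)] at h2
      have h3 := congrArg (fun n : ℕ => (n : ℤ)) h2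
      have hD1 : 1 ≤ Nat.card D := Nat.card_pos
      have h4 : ∀ g : G, (((if ∀ Q ∈ C, cjS g Q ≤ D then
          (Nat.card (cz D) ^ 2 * (Nat.card D - 1) + nP (cz D) (TT M D θ ⊓ cjS g (nrm C))) else 0 : ℕ)) : ℤ) =
          if ∀ Q ∈ C, cjS g Q ≤ D then f (TT M D θ ⊓ cjS g (nrm C)) else 0 := by
        intro g
        split_ifs with h5
        · rw [hf]
          push_cast [Nat.cast_sub hD1]
          ring
        · rfl
      simp only [Nat.cast_mul, Nat.cast_sum, h4] at h3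
      calc ((Nat.card (cz D) : ℤ) * Nat.card (TT M D θ)) * ((-1) ^ (C.card + 1) * ((Nat.card (nrm C) : ℤ) * (Blk M χ (nrm C)).ncard))
          = (-1) ^ (C.card + 1) * ((Nat.card (cz D) : ℤ) * ((Nat.card (TT M D θ) : ℤ) * ((Nat.card (nrm C) : ℤ) * (Blk M χ (nrm C)).ncard))) := by ring
        _ = (-1) ^ (C.card + 1) * (∑ g : G, if ∀ Q ∈ C, cjS g Q ≤ D then
              f (TT M D θ ⊓ cjS g (nrm C)) else 0) := by rw [h3]
        _ = _ := by
          rw [Finset.mul_sum]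
          refine Finset.sum_congr rfl fun g _ => ?_
          by_cases h6 : ∀ Q ∈ C, cjS g Q ≤ D
          · rw [if_pos h6, if_pos ⟨hC, h6⟩]
          · rw [if_neg h6, if_neg (fun h7 => h6 h7.2), mul_zero]
    · rw [if_neg hC, mul_zero]
      symm
      refine Finset.sum_eq_zero fun g _ => ?_
      rw [if_neg (fun h7 => hC h7.1)]
  rw [Finset.sum_congr rfl fun C _ => h1 C, Finset.sum_comm]
  -- one group element
  have h8 : ∀ g : G, ∑ C : Finset (Subgroup G),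
      (if (NCh p ⊤ ⊥ C ∧ C ≠ {⊥}) ∧ ∀ Q ∈ C, cjS g Q ≤ D then
        (-1) ^ (C.card + 1) * f (TT M D θ ⊓ cjS g (nrm C)) else 0) = - f (TT M D θ) := by
    intro g
    rw [← htg]
    refine Finset.sum_nbij' (fun C => chainMap (MulAut.conj g) C) (fun C => chainMap (MulAut.conj g⁻¹) C)
      (fun _ _ => Finset.mem_univ _) (fun _ _ => Finset.mem_univ _) ?_ ?_ ?_
    · intro C _
      exact FFS_inv hNM g⁻¹ g (inv_mul_cancel g) C
    · intro C _
      exact FFS_inv hNM g g⁻¹ (mul_inv_cancel g) C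
    · intro C _
      have hiff : ((NCh p ⊤ ⊥ C ∧ C ≠ {⊥}) ∧ ∀ Q ∈ C, cjS g Q ≤ D) ↔
          (PCh p D ⊥ (chainMap (MulAut.conj g) C) ∧ chainMap (MulAut.conj g) C ≠ {⊥}) := by
        constructor
        · rintro ⟨⟨h9, h10⟩, h11⟩
          exact ⟨FFS_fwd p D g C h9 h11, FFS_ne hNM g C h10⟩
        · rintro ⟨h9, h10⟩
          have h11 := FFS_bwd p D hcom g⁻¹ g (mul_inv_cancel g) _ h9
          rw [FFS_inv hNM g⁻¹ g (inv_mul_cancel g) C] at h11
          refine ⟨⟨h11.1, ?_⟩, h11.2⟩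
          intro h12
          apply h10
          rw [h12]
          exact FFS_map_bot _
      by_cases hc : (NCh p ⊤ ⊥ C ∧ C ≠ {⊥}) ∧ ∀ Q ∈ C, cjS g Q ≤ D
      · rw [if_pos hc, if_pos (hiff.1 hc), (hNM G (MulAut.conj g) C).2.2.1, (hNM G (MulAut.conj g) C).2.2.2.1]
      · rw [if_neg hc, if_neg (fun h9 => hc (hiff.2 h9))]
  rw [Finset.sum_congr rfl fun g _ => h8 g, Finset.sum_const, Finset.card_univ, ← Nat.card_eq_fintype_card, nsmul_eq_mul]
  ring

end Pool.Agent.FI2
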